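import Pool.Agent.HFC.Stmts
import Pool.Agent.PST.Fin

/-!
# Squad HFC, row MNL (helper5): the theorem for the union over the terminal class `LP`
-/

noncomputable section

namespace Pool.Agent.Helper5_HFC

open Pool.Agent.PP Pool.Agent.PSS Pool.Agent.PST Pool.Agent.PST.GU Pool.Agent.PST.GU.H3
open Pool.Agent.HFC

/-- rank at most two or few automorphisms, the numbers of the ordinary characters -/
theorem sto_kf (adl : ∀ ℓ : ℕ, ℓ.Prime → AdT ℓ LP) (ykl : YkFor LP) : StoFor (Kf LP) :=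
  stt_ LP adl (let__ LP adl (ymt_ LP adl ykl))

theorem sto_kv (adl : ∀ ℓ : ℕ, ℓ.Prime → AdT ℓ LP) (ykl : YkFor LP) (K : Kl) (h : StoFor K) :
    StoFor (KV K LP) := by
  intro ℓ hℓ M _ hM G _ _ e V γ hL W hW hK c hc
  rcases hK with hK | hK | hK
  · exact h ℓ M hM G e V γ hL W hW hK c hc
  · exact sto_kf adl ykl ℓ M hM G e V γ hL W hW hK c hc
  · exact sto_k4 Fin.stq_ LP ℓ M hM G e V γ hL W hW hK c hc

theorem adm_kv (adl : ∀ ℓ : ℕ, ℓ.Prime → AdT ℓ LP) (K : Kl)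
    (h : ∀ ℓ : ℕ, ℓ.Prime → Adm ℓ K) : ∀ ℓ : ℕ, ℓ.Prime → Adm ℓ (KV K LP) :=
  fun ℓ hℓ => adw_ K LP ℓ hℓ (h ℓ hℓ) (adl ℓ hℓ)

/-- MNL: the theorem for the union over the terminal class `LP` -/
theorem mnl : MnlStmt := fun adl ykl K h hs =>
  ⟨adm_kv adl K h, PSS.H11.len_ (KV K LP) (adm_kv adl K h) (sto_kv adl ykl K hs)⟩

end Pool.Agent.Helper5_HFC
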